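import Pool.Agent.W_eea520_h3.HB2
import Pool.Agent.W_eea520_n.Defs
import Pool.Agent.W_eea520_half.End73
import Pool.Agent.W_eea520_h59.HalfHA

/-!
# The Euler product at `s = 1/2` (MP_eea520_nt): assembly
-/

set_option autoImplicit false

namespace Pool.Agent.EEAH

open Filter Topology Pool.Agent.EEA520 Pool.Agent.EEAG1 LSeries Pool.Agent.EEAL
  Pool.Agent.EEAN

variable {n : ℕ}

/-- A meromorphic continuation is given by the exponential of the logarithm, far to the right. -/
theorem exists_G {π : GSys n} (hπ : Tempered π) {m : Wt n →₀ ℤ} (h : Continues π m) :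
    ∃ (G : ℂ → ℂ) (b : ℝ), (∀ s, MeromorphicAt G s) ∧ 1 ≤ b ∧
      ∀ s : ℂ, b < s.re → G s = Complex.exp (LSeries (chn π m) s + hol π m s) := by
  classical
  obtain ⟨S, b, g, hg, hL⟩ := h
  refine ⟨fun s => g s * ∏ p ∈ S, (π p).factor m (((p : ℕ) : ℂ) ^ (-s)), max b 1, fun s =>
    (hg s).fun_mul (MeromorphicAt.fun_prod fun p _ => La_factor_mero (π p) m p s),
    le_max_right _ _, fun s hs => ?_⟩
  have h2 := factor_hasProd hπ m ((le_max_right b 1).trans_lt hs)
  have h3 : HasProd (fun p : Pr => (π p).factor m (((p : ℕ) : ℂ) ^ (-s)))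
      ((∏ p ∈ S, (π p).factor m (((p : ℕ) : ℂ) ^ (-s))) * g s) :=
    HasProd.mul_compl (s := (S : Set Pr))
      (S.hasProd fun p : Pr => (π p).factor m (((p : ℕ) : ℂ) ^ (-s)))
      (hL s ((le_max_left b 1).trans_lt hs))
  have h4 := h3.unique h2
  change g s * _ = _
  rw [mul_comm, h4]

/-- The core: the order at `s = 1/2`. -/
theorem half_asm {π : GSys n} (hπ : Tempered π) {m : Wt n →₀ ℤ} (hc : Continues π m) {k : ℤ}
    (hk : PoleOrder π (adams m) (pt 0) k) (hodd : Odd k) {c : ℝ}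
    {F : ℂ → ℂ} (hF : DifferentiableOn ℂ F {s | 1/2 < s.re})
    (hF1 : ∀ s : ℂ, 1 < s.re → F s = LSeries (chn π m) s)
    (hF2 : ∃ K : ℝ, ∀ᶠ x : ℝ in 𝓝[>] (1/2 : ℝ), ‖F x‖ ≤ (c / 2) * Real.log (1/(x - 1/2)) + K) :
    1 ≤ c := by
  obtain ⟨G, b, hG, hb1, hGL⟩ := exists_G hπ hc
  obtain ⟨K, hK⟩ := hF2
  obtain ⟨C, hC⟩ := hb2 hπ hk
  set H : ℂ → ℂ := fun s => F s + ((1 / 2 : ℂ) * LSeries (chn π (adams m)) (2 * s) + hol3 π m s) with hH
  have hdiffL : DifferentiableOn ℂ (fun s : ℂ => LSeries (chn π (adams m)) (2 * s))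
      {s | 1/2 < s.re} := by
    intro s hs
    have hs' : 1 / 2 < s.re := hs
    have h2s : 1 < (2 * s).re := by
      rw [Complex.mul_re]
      norm_num
      linarith
    have h1 := (chn_hasDerivAt hπ (adams m) h2s).differentiableAt
    refine DifferentiableAt.differentiableWithinAt ?_
    exact DifferentiableAt.comp s h1 (differentiableAt_id.const_mul 2)
  have hHd : DifferentiableOn ℂ H {s | 1/2 < s.re} := by
    refine hF.add ((hdiffL.const_mul _).add ?_)
    exact (hol3_differentiable hπ m).mono fun s hs => by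
      have hs' : 1 / 2 < s.re := hs
      show 9 / 20 < s.re
      linarith
  have hGH : ∀ s : ℂ, b < s.re → G s = Complex.exp (H s) := by
    intro s hs
    have h1 : 1 < s.re := hb1.trans_lt hs
    rw [hGL s hs, hol_eq hπ m h1, ← hF1 s h1]
  -- the bounded part
  have hcont : ContinuousAt (fun x : ℝ => (hol3 π m (x : ℂ)).re) (1/2) := by
    have h1 : ContinuousAt (hol3 π m) (((1/2 : ℝ)) : ℂ) := by
      refine ((hol3_differentiable hπ m).differentiableAt ?_).continuousAt
      refine (isOpen_lt continuous_const Complex.continuous_re).mem_nhds ?_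
      show 9 / 20 < (((1/2 : ℝ)) : ℂ).re
      rw [Complex.ofReal_re]
      norm_num
    exact Complex.continuous_re.continuousAt.comp
      (ContinuousAt.comp (f := fun x : ℝ => (x : ℂ)) h1 Complex.continuous_ofReal.continuousAt)
  have hbd : ∀ᶠ x : ℝ in 𝓝[>] (1/2 : ℝ), |(hol3 π m (x : ℂ)).re| ≤
      |(hol3 π m ((1/2 : ℝ) : ℂ)).re| + 1 := by
    have h1 := hcont.tendsto.abs.eventually (eventually_le_nhds (lt_add_one _))
    exact h1.filter_mono nhdsWithin_le_nhds
  obtain ⟨m', hm'⟩ := half_end (g := G) (H := H) (b := b) (a := (k : ℝ) / 2) (c := c / 2)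
    (K := K + C / 2 + (|(hol3 π m ((1/2 : ℝ) : ℂ)).re| + 1)) (fun s _ => hG s) hHd hGH (by
      filter_upwards [hK, hC, hbd, self_mem_nhdsWithin] with x h1 h2 h3 h4
      have hx : 0 < x - 1/2 := sub_pos.2 h4
      have hlog : Real.log (1 / (x - 1/2)) = - Real.log (x - 1/2) := by
        rw [one_div, Real.log_inv]
      have h5 : (H (x : ℂ)).re = (F x).re + ((1/2 : ℝ) * (LSeries (chn π (adams m)) (2 * (x : ℂ))).re +
          (hol3 π m (x : ℂ)).re) := by
        rw [hH]
        simp only [Complex.add_re]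
        congr 2
        have h6 : (1 / 2 : ℂ) = ((1/2 : ℝ) : ℂ) := by push_cast; rfl
        rw [h6, Complex.re_ofReal_mul]
      have h6 := Complex.abs_re_le_norm (F x)
      rw [h5, hlog]
      rw [hlog] at h1
      rw [abs_le] at h2 h3 h6 ⊢
      constructor
      · linarith [h2.1, h2.2, h3.1, h3.2, h6.1, h6.2]
      · linarith [h2.1, h2.2, h3.1, h3.2, h6.1, h6.2])
  by_contra hlt
  push Not at hlt
  obtain ⟨j, hj⟩ := hodd
  rw [hj] at hm'
  push_cast at hm'
  have h1 : |(2 * m' - (2 * j + 1) : ℝ)| < 1 := by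
    have h2 : (2 * m' - (2 * j + 1) : ℝ) = 2 * ((m' : ℝ) - (2 * j + 1) / 2) := by ring
    rw [h2, abs_mul, abs_of_pos (by norm_num : (0:ℝ) < 2)]
    linarith
  have h2 : |2 * m' - (2 * j + 1)| < 1 := by exact_mod_cast h1
  rw [Int.abs_lt_one_iff] at h2
  omega

theorem theta_eq (π : GSys n) (m : Wt n →₀ ℤ) (N : ℕ) :
    theta π m N = ∑ k ∈ Finset.Icc 1 N, LSeries.logMul (chn π m) k := by
  have h1 : theta π m N = ∑ k ∈ Finset.range (N + 1), LSeries.logMul (chn π m) k := by
    unfold theta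
    refine Finset.sum_congr rfl fun k _ => ?_
    unfold LSeries.logMul chn
    by_cases h : k.Prime
    · rw [dif_pos h, dif_pos h, ← Complex.natCast_log, mul_comm]
      rfl
    · rw [dif_neg h, dif_neg h, mul_zero]
  have h2 : LSeries.logMul (chn π m) 0 = 0 := by
    unfold LSeries.logMul chn
    rw [dif_neg Nat.not_prime_zero, mul_zero]
  rw [h1, Finset.range_eq_Ico, Finset.sum_eq_sum_Ico_succ_bot (Nat.succ_pos N), h2, zero_add]
  rfl

/-- THEOREM HALF. If the Euler product of the virtual representation `m` is meromorphic on `ℂ`, and if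
the pole order at `1` of the Adams square of `m` is odd, then the sum of `tr V(A_p) log p` over the
primes `p ≤ N` is at least `c √N` in absolute value for arbitrarily large `N`, for every `c < 1`. -/
theorem half {π : GSys n} (hπ : Tempered π) {m : Wt n →₀ ℤ} (hc : Continues π m) {k : ℤ}
    (hk : PoleOrder π (adams m) 1 k) (hodd : Odd k) : NoSaving π m := by
  intro c hc1
  by_contra hcon
  rw [not_frequently] at hcon
  have hpt : (1 : ℂ) = pt 0 := by
    unfold pt
    simp
  rw [hpt] at hk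
  set c' : ℝ := max c 0 with hc'
  have hS : ∀ᶠ N : ℕ in atTop, ‖∑ k ∈ Finset.Icc 1 N, LSeries.logMul (chn π m) k‖ ≤
      c' * Real.sqrt N := by
    filter_upwards [hcon] with N hN
    rw [← theta_eq]
    exact (not_lt.1 hN).trans (mul_le_mul_of_nonneg_right (le_max_left _ _) (Real.sqrt_nonneg _))
  obtain ⟨F, h1, h2, K, h3⟩ := Pool.Agent.W_eea520_h59.haN (chn π m) (B := mnorm m)
    (fun k => chn_le hπ m k) (by unfold chn; rw [dif_neg Nat.not_prime_one]) (le_max_right c 0) hS
  have h4 := half_asm hπ hc hk hodd (c := c') h1 h2 ⟨K, by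
    have h5 : ∀ᶠ x : ℝ in 𝓝[>] (1/2 : ℝ), x ≤ 1 :=
      (eventually_le_nhds (by norm_num)).filter_mono nhdsWithin_le_nhds
    filter_upwards [h5, self_mem_nhdsWithin] with x hx1 hx
    exact h3 x hx hx1⟩
  have h5 : c' < 1 := max_lt hc1 one_pos
  linarith

end Pool.Agent.EEAH
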