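import Pool.Agent.W_eea520_n.Defs

/-!
# Left of the edge: definitions (MP_eea520_nt)
-/

set_option autoImplicit false

namespace Pool.Agent.EEAH

open Pool.Agent.EEA520 Pool.Agent.EEAN

/-- The Adams operation: the virtual character `A ↦ m (A ^ 2)`. -/
noncomputable def adams {n : ℕ} (m : Wt n →₀ ℤ) : Wt n →₀ ℤ := m.mapDomain fun w => w + w

/-- The sum of `tr m(A_p) log p` over the primes `p ≤ N`. -/
noncomputable def theta {n : ℕ} (π : GSys n) (m : Wt n →₀ ℤ) (N : ℕ) : ℂ :=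
  ∑ k ∈ Finset.range (N + 1), if h : k.Prime then trc π m ⟨k, h⟩ * Real.log k else 0

/-- The limit superior of `|∑_{p ≤ N} tr m(A_p) log p| / √N` is at least `1`. -/
def NoSaving {n : ℕ} (π : GSys n) (m : Wt n →₀ ℤ) : Prop :=
  ∀ c : ℝ, c < 1 → ∃ᶠ N : ℕ in Filter.atTop, c * Real.sqrt N < ‖theta π m N‖

end Pool.Agent.EEAH
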