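import Pool.Agent.W_eea520_h3.Hol3

/-!
# The asymptotics of the sum over the primes at the edge (MP_eea520_nt)
-/

set_option autoImplicit false

namespace Pool.Agent.EEAH

open Filter Topology Pool.Agent.EEA520 Pool.Agent.EEAG1 LSeries Pool.Agent.EEAL

variable {n : ℕ}

theorem hb1 {π : GSys n} (hπ : Tempered π) {m : Wt n →₀ ℤ} {k : ℤ}
    (h : PoleOrder π m (pt 0) k) :
    ∃ C : ℝ, ∀ᶠ s : ℝ in 𝓝[>] (1 : ℝ),
      |(LSeries (chn π m) ((s : ℂ) + (0 : ℝ) * Complex.I)).re + k * Real.log (s - 1)| ≤ C := by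
  obtain ⟨g, hg, hk, hL⟩ := h
  have hgl : ∀ᶠ s : ℝ in 𝓝[>] (1 : ℝ), g ((s : ℂ) + (0 : ℝ) * Complex.I) =
      Complex.exp (LSeries (chn π m) ((s : ℂ) + (0 : ℝ) * Complex.I) +
        hol π m ((s : ℂ) + (0 : ℝ) * Complex.I)) := by
    filter_upwards [(tendsto_pt 0).eventually hL, self_mem_nhdsWithin] with s hs hs1
    have h1 : 1 < ((s : ℂ) + (0 : ℝ) * Complex.I).re := by
      have : (1 : ℝ) < s := hs1
      simpa using this
    exact hs.unique (factor_hasProd hπ m h1)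
  obtain ⟨k', hk', C, hC⟩ := log_meromorphic_pt hg (hgl.mono fun s hs => by
    rw [hs]
    exact Complex.exp_ne_zero _)
  have hkk : k' = -k := by
    rw [hk] at hk'
    exact_mod_cast hk'.symm
  have hcont : ContinuousAt (fun s : ℝ => (hol π m ((s : ℂ) + (0 : ℝ) * Complex.I)).re) 1 := by
    have h1 : ContinuousAt (hol π m) ((((1 : ℝ)) : ℂ) + (0 : ℝ) * Complex.I) := by
      refine ((hol_differentiable hπ m).differentiableAt ?_).continuousAt
      refine (isOpen_lt continuous_const Complex.continuous_re).mem_nhds ?_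
      show 3 / 4 < ((((1 : ℝ)) : ℂ) + (0 : ℝ) * Complex.I).re
      simp
      norm_num
    have h2 : ContinuousAt (fun s : ℝ => (s : ℂ) + (0 : ℝ) * Complex.I) 1 := by fun_prop
    exact Complex.continuous_re.continuousAt.comp
      (ContinuousAt.comp (f := fun s : ℝ => (s : ℂ) + (0 : ℝ) * Complex.I) h1 h2)
  have hbd : ∀ᶠ s : ℝ in 𝓝[>] (1 : ℝ), |(hol π m ((s : ℂ) + (0 : ℝ) * Complex.I)).re| ≤
      |(hol π m (((1 : ℝ) : ℂ) + (0 : ℝ) * Complex.I)).re| + 1 := by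
    have h1 := hcont.tendsto.abs.eventually (eventually_le_nhds (lt_add_one _))
    exact h1.filter_mono nhdsWithin_le_nhds
  refine ⟨C + (|(hol π m (((1 : ℝ) : ℂ) + (0 : ℝ) * Complex.I)).re| + 1), ?_⟩
  filter_upwards [hgl, hC, hbd] with s h1 h2 h3
  rw [h1, Complex.norm_exp, Real.log_exp, Complex.add_re, hkk, Int.cast_neg] at h2
  rw [abs_le] at h2 h3 ⊢
  constructor
  · linarith [h2.1, h2.2, h3.1, h3.2]
  · linarith [h2.1, h2.2, h3.1, h3.2]

theorem hb2 {π : GSys n} (hπ : Tempered π) {m : Wt n →₀ ℤ} {k : ℤ}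
    (h : PoleOrder π m (pt 0) k) :
    ∃ C : ℝ, ∀ᶠ x : ℝ in 𝓝[>] (1/2 : ℝ),
      |(LSeries (chn π m) (2 * (x : ℂ))).re + k * Real.log (x - 1/2)| ≤ C := by
  obtain ⟨C, hC⟩ := hb1 hπ h
  have ht : Tendsto (fun x : ℝ => 2 * x) (𝓝[>] (1/2 : ℝ)) (𝓝[>] (1 : ℝ)) := by
    refine tendsto_nhdsWithin_iff.2 ⟨?_, ?_⟩
    · have h1 : ContinuousAt (fun x : ℝ => 2 * x) (1/2) := by fun_prop
      have h2 := h1.tendsto
      have h3 : (2 : ℝ) * (1/2) = 1 := by norm_num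
      rw [h3] at h2
      exact h2.mono_left nhdsWithin_le_nhds
    · filter_upwards [self_mem_nhdsWithin] with x hx
      have h1 : (1/2 : ℝ) < x := hx
      show (1 : ℝ) < 2 * x
      linarith
  refine ⟨C + |(k : ℝ)| * Real.log 2, ?_⟩
  filter_upwards [ht.eventually hC, self_mem_nhdsWithin] with x h1 h2
  have hx : 0 < x - 1/2 := sub_pos.2 h2
  have h3 : (((2 * x : ℝ) : ℂ) + (0 : ℝ) * Complex.I) = 2 * (x : ℂ) := by
    push_cast
    ring
  have h4 : Real.log (2 * x - 1) = Real.log 2 + Real.log (x - 1/2) := by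
    rw [← Real.log_mul (by norm_num) hx.ne']
    congr 1
    ring
  rw [h3, h4] at h1
  have hl2 : 0 ≤ Real.log 2 := Real.log_nonneg (by norm_num)
  have h5 : |(k : ℝ) * Real.log 2| ≤ |(k : ℝ)| * Real.log 2 := by
    rw [abs_mul, abs_of_nonneg hl2]
  rw [abs_le] at h1 h5 ⊢
  constructor
  · nlinarith [h1.1, h1.2, h5.1, h5.2]
  · nlinarith [h1.1, h1.2, h5.1, h5.2]

end Pool.Agent.EEAH
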