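import Pool.Agent.W_eea520_L.La
import Pool.Agent.W_eea520_h3.Def

/-!
# The logarithm of the Euler product left of the edge (MP_eea520_nt)
-/

set_option autoImplicit false

namespace Pool.Agent.EEAH

open Filter Topology Pool.Agent.EEA520 Pool.Agent.EEAG1 LSeries

variable {n : ℕ}

theorem ev_dbl (t : Torus n) (w : Wt n) : (t.ev (w + w) : ℂ) = (t.ev w : ℂ) * (t.ev w : ℂ) := by
  have h : t.ev (w + w) = t.ev w * t.ev w := by
    unfold Torus.ev
    simp only [Prod.fst_add, Prod.snd_add, Pi.add_apply, zpow_add, Finset.prod_mul_distrib]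
    exact mul_mul_mul_comm _ _ _ _
  rw [h, Units.val_mul]

theorem trq_adams (t : Torus n) (m : Wt n →₀ ℤ) (q : ℂ) :
    trq t (adams m) q = m.sum fun w e => (e : ℂ) * ((t.ev w : ℂ) * (t.ev w : ℂ) * q) := by
  unfold trq adams
  rw [Finsupp.sum_mapDomain_index]
  · refine Finset.sum_congr rfl fun w _ => ?_
    show ((m w : ℤ) : ℂ) * ((t.ev (w + w) : ℂ) * q) = _
    rw [ev_dbl]
  · intro w
    simp
  · intro w a b
    push_cast
    ring

/-- The terms of order three and more. -/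
noncomputable def h3t (t : Torus n) (m : Wt n →₀ ℤ) (q : ℂ) : ℂ :=
  lfac t m q - trq t m q - (1 / 2 : ℂ) * trq t (adams m) (q * q)

theorem h3t_bound {t : Torus n} (ht : ∀ w, ‖(t.ev w : ℂ)‖ = 1) (m : Wt n →₀ ℤ) {q : ℂ}
    (hq : ‖q‖ ≤ 3 / 4) : ‖h3t t m q‖ ≤ mnorm m * (2 * ‖q‖ ^ 3) := by
  unfold h3t
  rw [trq_adams]
  unfold lfac trq mnorm Finsupp.sum
  rw [← Finset.sum_sub_distrib, Finset.mul_sum, ← Finset.sum_sub_distrib, Finset.sum_mul]
  refine norm_sum_le_of_le _ fun w _ => ?_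
  have hz : ‖-((t.ev w : ℂ) * q)‖ = ‖q‖ := by rw [norm_neg, norm_mul, ht, one_mul]
  have h2 := Complex.norm_log_sub_logTaylor_le 2 (z := -((t.ev w : ℂ) * q))
    (by rw [hz]; linarith)
  rw [hz] at h2
  have h3 : -(((m w : ℤ) : ℂ) * Complex.log (1 - (t.ev w : ℂ) * q)) -
      ((m w : ℤ) : ℂ) * ((t.ev w : ℂ) * q) -
      (1 / 2 : ℂ) * (((m w : ℤ) : ℂ) * ((t.ev w : ℂ) * (t.ev w : ℂ) * (q * q))) =
      -((m w : ℤ) : ℂ) * (Complex.log (1 + -((t.ev w : ℂ) * q)) -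
        Complex.logTaylor (2 + 1) (-((t.ev w : ℂ) * q))) := by
    rw [← sub_eq_add_neg]
    simp only [Complex.logTaylor, Finset.sum_range_succ, Finset.sum_range_zero]
    push_cast
    ring
  rw [h3, norm_mul, norm_neg, Complex.norm_intCast]
  refine mul_le_mul_of_nonneg_left (h2.trans ?_) (abs_nonneg _)
  have h4 : (1 - ‖q‖)⁻¹ ≤ 4 := by
    rw [inv_le_comm₀ (by linarith) (by norm_num)]
    linarith
  have h5 : 0 ≤ ‖q‖ ^ 3 := by positivity
  have h6 : ‖q‖ ^ (2 + 1) * (1 - ‖q‖)⁻¹ / (((2 : ℕ) : ℝ) + 1) ≤ ‖q‖ ^ 3 * 4 / 3 := by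
    have h7 : (((2 : ℕ) : ℝ) + 1) = 3 := by norm_num
    rw [h7]
    have h8 := mul_le_mul_of_nonneg_left h4 h5
    have h9 : ‖q‖ ^ (2 + 1) = ‖q‖ ^ 3 := rfl
    rw [h9]
    linarith
  refine h6.trans ?_
  linarith

theorem h3_le {s : ℂ} (hs : 9 / 20 < s.re) (p : Pr) : ‖(((p : ℕ) : ℂ) ^ (-s))‖ ≤ 3 / 4 := by
  have hp2 : (2 : ℝ) ≤ ((p : ℕ) : ℝ) := by exact_mod_cast p.2.two_le
  rw [hol_norm]
  have h1 : ((p : ℕ) : ℝ) ^ (-s.re) ≤ (2 : ℝ) ^ (-(9 / 20 : ℝ)) := by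
    calc ((p : ℕ) : ℝ) ^ (-s.re) ≤ (2 : ℝ) ^ (-s.re) :=
          Real.rpow_le_rpow_of_nonpos (by norm_num) hp2 (by linarith)
      _ ≤ (2 : ℝ) ^ (-(9 / 20 : ℝ)) :=
          Real.rpow_le_rpow_of_exponent_le (by norm_num) (by linarith)
  refine h1.trans ?_
  rw [Real.rpow_neg (by norm_num), inv_le_comm₀ (by positivity) (by norm_num)]
  have h2 : ((2 : ℝ) ^ (9 / 20 : ℝ)) ^ 20 = 512 := by
    rw [← Real.rpow_natCast, ← Real.rpow_mul (by norm_num)]
    norm_num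
  by_contra hcon
  push Not at hcon
  have h3 : ((2 : ℝ) ^ (9 / 20 : ℝ)) ^ 20 < ((3 / 4 : ℝ)⁻¹) ^ 20 :=
    pow_lt_pow_left₀ hcon (by positivity) (by norm_num)
  rw [h2] at h3
  norm_num at h3

theorem h3_cube {s : ℂ} (hs : 9 / 20 < s.re) (p : Pr) :
    ‖(((p : ℕ) : ℂ) ^ (-s))‖ ^ 3 ≤ ((p : ℕ) : ℝ) ^ (-(27 / 20 : ℝ)) := by
  have hp1 : (1 : ℝ) ≤ ((p : ℕ) : ℝ) := by exact_mod_cast p.2.one_lt.le
  rw [hol_norm, ← Real.rpow_natCast, ← Real.rpow_mul (by linarith)]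
  refine Real.rpow_le_rpow_of_exponent_le hp1 ?_
  push_cast
  linarith

/-- The sum of the terms of order three and more. -/
noncomputable def hol3 (π : GSys n) (m : Wt n →₀ ℤ) (s : ℂ) : ℂ :=
  ∑' p : Pr, h3t (π p) m (((p : ℕ) : ℂ) ^ (-s))

theorem hol3_term {π : GSys n} (hπ : Tempered π) (m : Wt n →₀ ℤ) {s : ℂ} (hs : 9 / 20 < s.re)
    (p : Pr) : ‖h3t (π p) m (((p : ℕ) : ℂ) ^ (-s))‖ ≤
      mnorm m * (2 * ((p : ℕ) : ℝ) ^ (-(27 / 20 : ℝ))) := by
  refine (h3t_bound (fun w => norm_ev hπ p w) m (h3_le hs p)).trans ?_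
  exact mul_le_mul_of_nonneg_left (mul_le_mul_of_nonneg_left (h3_cube hs p) (by norm_num))
    (mnorm_nonneg m)

theorem hol3_summable (m : Wt n →₀ ℤ) :
    Summable fun p : Pr => mnorm m * (2 * ((p : ℕ) : ℝ) ^ (-(27 / 20 : ℝ))) :=
  ((Nat.Primes.summable_rpow.2 (by norm_num)).mul_left 2).mul_left _

theorem hol3_differentiable {π : GSys n} (hπ : Tempered π) (m : Wt n →₀ ℤ) :
    DifferentiableOn ℂ (hol3 π m) {s : ℂ | 9 / 20 < s.re} := by
  refine Complex.differentiableOn_tsum_of_summable_norm (hol3_summable m) ?_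
    (isOpen_lt continuous_const Complex.continuous_re) fun p s hs => hol3_term hπ m hs p
  intro p s hs
  have hs' : 9 / 20 < s.re := hs
  refine DifferentiableAt.differentiableWithinAt ?_
  have hp0 : ((p : ℕ) : ℂ) ≠ 0 := by exact_mod_cast p.2.ne_zero
  have hq : DifferentiableAt ℂ (fun s : ℂ => ((p : ℕ) : ℂ) ^ (-s)) s :=
    DifferentiableAt.const_cpow differentiableAt_id.neg (Or.inl hp0)
  unfold h3t
  refine DifferentiableAt.sub (DifferentiableAt.sub ?_ ?_) ?_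
  · unfold lfac Finsupp.sum
    refine DifferentiableAt.fun_sum fun w _ => DifferentiableAt.neg ?_
    refine DifferentiableAt.const_mul ?_ _
    refine DifferentiableAt.clog (DifferentiableAt.const_sub (hq.const_mul _) 1) ?_
    rw [Complex.mem_slitPlane_iff]
    left
    have h1 : ‖((π p).ev w : ℂ) * ((p : ℕ) : ℂ) ^ (-s)‖ ≤ 3 / 4 := by
      rw [norm_mul, norm_ev hπ, one_mul]
      exact h3_le hs' p
    have h2 := (abs_le.1 ((Complex.abs_re_le_norm _).trans h1)).2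
    rw [Complex.sub_re, Complex.one_re]
    linarith
  · unfold trq Finsupp.sum
    refine DifferentiableAt.fun_sum fun w _ => ?_
    exact (hq.const_mul _).const_mul _
  · unfold trq Finsupp.sum
    refine DifferentiableAt.const_mul ?_ _
    refine DifferentiableAt.fun_sum fun w _ => ?_
    exact ((hq.mul hq).const_mul _).const_mul _

/-- The decomposition of the logarithm in the half plane of convergence. -/
theorem hol_eq {π : GSys n} (hπ : Tempered π) (m : Wt n →₀ ℤ) {s : ℂ} (hs : 1 < s.re) :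
    hol π m s = (1 / 2 : ℂ) * LSeries (chn π (adams m)) (2 * s) + hol3 π m s := by
  have h2s : 1 < (2 * s).re := by
    rw [Complex.mul_re]
    norm_num
    linarith
  have h1 := (chn_hasSum hπ (adams m) h2s).mul_left (1 / 2 : ℂ)
  have h2 : HasSum (fun p : Pr => h3t (π p) m (((p : ℕ) : ℂ) ^ (-s))) (hol3 π m s) :=
    (Summable.of_norm_bounded (hol3_summable m) fun p =>
      hol3_term hπ m (by linarith) p).hasSum
  have h3 := h1.add h2
  have h4 : (fun p : Pr => (1 / 2 : ℂ) * trq (π p) (adams m) (((p : ℕ) : ℂ) ^ (-(2 * s))) +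
      h3t (π p) m (((p : ℕ) : ℂ) ^ (-s))) =
      fun p : Pr => lfac (π p) m (((p : ℕ) : ℂ) ^ (-s)) - trq (π p) m (((p : ℕ) : ℂ) ^ (-s)) := by
    funext p
    have hp0 : ((p : ℕ) : ℂ) ≠ 0 := by exact_mod_cast p.2.ne_zero
    have h5 : ((p : ℕ) : ℂ) ^ (-(2 * s)) = ((p : ℕ) : ℂ) ^ (-s) * ((p : ℕ) : ℂ) ^ (-s) := by
      rw [← Complex.cpow_add _ _ hp0]
      congr 1
      ring
    rw [h5]
    unfold h3t
    ring
  rw [h4] at h3
  exact h3.tsum_eq

end Pool.Agent.EEAH
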